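import Mathlib
import Pool.Agent.Lib.helper7.Fill

namespace Pool.Agent.Results.MP_f351c6_gt.NeverParacompact

open Set Pool.Agent.Lib.Helper7Fill

universe u v

/-- The orbit `G_f = {g f | g ∈ G}` in `X^G`, where `(g f)(x) = f (x g)`. -/
def orbit {G : Type u} {X : Type v} [CommGroup G] (f : G → X) : Set (G → X) :=
  range fun g : G => fun x => f (x * g)

/-- The orbit of `f` projects onto `X^M` for every countable `M ⊆ G`. -/
def Korovin {G : Type u} {X : Type v} [CommGroup G] (f : G → X) : Prop :=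
  ∀ M : Set G, M.Countable → ∀ y : M → X, ∃ p ∈ orbit f, ∀ m : M, p m = y m

theorem result {G : Type u} {X : Type v} [CommGroup G] [TopologicalSpace X] [Nontrivial X]
    (f : G → X) (hf : Korovin f) : ¬ (T2Space (orbit f) ∧ ParacompactSpace (orbit f)) := by
  rintro ⟨h2, hp⟩
  have hF : Fill (X := fun _ : G => X) (orbit f) := fun J hJ a => by
    obtain ⟨p, h1, h2⟩ := hf J hJ fun i => a i
    exact ⟨p, h1, fun i hi => h2 ⟨i, hi⟩⟩
  have sur : ∀ y, ∃ p ∈ orbit f, p 1 = y := fun y => by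
    obtain ⟨p, h1, h2⟩ := hF {1} (countable_singleton _) fun _ => y
    exact ⟨p, h1, h2 1 rfl⟩
  have : ∃ U : Set X, IsOpen U ∧ U.Nonempty ∧ ∃ a, a ∉ U := by
    by_contra hn
    push Not at hn
    obtain ⟨y, z, hyz⟩ := exists_pair_ne X
    obtain ⟨p, p1, p2⟩ := sur y
    obtain ⟨q, q1, q2⟩ := sur z
    have ne : (⟨p, p1⟩ : orbit f) ≠ ⟨q, q1⟩ := fun e => hyz (by
      rw [← p2, ← q2, show p = q from congrArg Subtype.val e])
    obtain ⟨S, B, b1, b2⟩ := basic (X := fun _ : G => X) (isOpen_ne.mem_nhds ne)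
    exact b2 ⟨q, q1⟩ (fun i hi => hn _ (b1 i hi).1 ⟨_, (b1 i hi).2⟩ _) rfl
  obtain ⟨U, hU, ⟨y, hy⟩, a, ha⟩ := this
  refine avoid hF (fun _ => a) (fun _ => U) (fun _ => hU) (fun _ => ha) ?_
  rintro _ ⟨g, rfl⟩
  obtain ⟨_, ⟨h, rfl⟩, e⟩ := sur y
  exact ⟨h * g⁻¹, by simpa [← e] using hy⟩

end Pool.Agent.Results.MP_f351c6_gt.NeverParacompact
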